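import Mathlib
import Pool.Agent.H.MP_8d0ff6_al.B

set_option autoImplicit false

namespace Pool.Agent.Results.MP_8d0ff6_al.Main

open Set Equiv Filter Topology Pool.Agent.H.MP_8d0ff6_al.A Pool.Agent.H.MP_8d0ff6_al.B
open Function hiding swap
open scoped commutatorElement

lemma fin_comm {c b : S} (h : (mv c ∩ mv b).Finite) : ⁅c, b⁆ ∈ Nc :=
  memc.2 (((h.union (h.image c)).union (h.image b)).subset fun x hx => by
    by_contra k
    refine hx ?_
    have h1 : c x = x ∨ b x = x := by grind [mv]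
    have h2 : c (c.symm x) = c.symm x ∨ b (c.symm x) = c.symm x := by
      by_contra! a
      exact k (.inl (.inr ⟨_, a, by simp⟩))
    have h3 : c (b.symm x) = b.symm x ∨ b (b.symm x) = b.symm x := by
      by_contra! a
      exact k (.inr ⟨_, a, by simp⟩)
    have : c.symm (b.symm x) = b.symm (c.symm x) := by grind
    simp [commutatorElement_def, Perm.inv_def, this])

variable [TopologicalSpace S] [IsTopologicalGroup S] [T2Space S] [(𝓝 (1 : S)).IsCountablyGenerated]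

omit [T2Space S] in
lemma step (hg : ∀ U ∈ 𝓝 (1 : S), ∃ g ∈ U, g ∉ Nc) {U : Set S} (hU : U ∈ 𝓝 1)
    (Z : {Z : Set ℤ // Z.Infinite}) :
    ∃ Y : {Z : Set ℤ // Z.Infinite}, Y.1 ⊆ Z.1 ∧ ∃ h ∈ U, ∀ y ∈ Y.1, h y ∉ Y.1 := by
  obtain ⟨B, hB⟩ := (𝓝 (1 : S)).exists_antitone_basis
  choose g g1 g2 using fun j => hg _ (hB.mem j)
  obtain ⟨x, x1, x2⟩ := seqI (fun m (a : ℕ × ℤ) => a.1 = m.unpair.1 ∧ g a.1 a.2 ≠ a.2)
    (fun a b => b.2 ≠ a.2 ∧ b.2 ≠ g a.1 a.2 ∧ g a.1 b.2 ≠ a.2) fun m s => by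
      obtain ⟨y, h1, h2⟩ := Set.Infinite.exists_notMem_finset (mt memc.2 (g2 m.unpair.1))
        (s.image (·.2) ∪ s.image (fun a => g a.1 a.2) ∪ s.image fun a => (g a.1).symm a.2)
      exact ⟨(_, y), ⟨rfl, h1⟩, fun a ha => by grind⟩
  have e : Injective fun a : Σ _ : ℕ, ℕ => a.1.pair a.2 := fun ⟨_, _⟩ ⟨_, _⟩ e => by simpa using e
  let z : ℕ → ℤ := fun n => Z.2.natEmbedding _ n
  have hz : Injective z := Subtype.val_injective.comp (Z.2.natEmbedding _).injective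
  obtain ⟨f, hf⟩ := ext2 ((inj_of fun m n k => (x2 m n k).1).comp e) (hz.comp e)
  obtain ⟨j, hj⟩ := ((((by fun_prop : Continuous fun x : S => f * x * f⁻¹).tendsto' 1 1
    (by simp)).comp ((hB.tendsto g1).comp (tendsto_id.const_mul_atTop' two_pos))).eventually
      hU).exists
  refine ⟨⟨range fun k => z ((2 * j).pair k), infinite_range_of_injective fun _ _ k => by
    simpa using hz k⟩, by rintro _ ⟨k, rfl⟩; exact (Z.2.natEmbedding _ _).2, _, hj, ?_⟩
  rintro _ ⟨k, rfl⟩ ⟨l, e⟩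
  have h1 : (x ((2 * j).pair l)).2 = g (2 * j) (x ((2 * j).pair k)).2 :=
    f.injective ((hf j l).trans (e.trans (by
      simp [show z ((2 * j).pair k) = f _ from (hf j k).symm])))
  have h2 := x1 ((2 * j).pair k)
  have h3 := x1 ((2 * j).pair l)
  have h4 := x2 ((2 * j).pair k) ((2 * j).pair l)
  have h5 := x2 ((2 * j).pair l) ((2 * j).pair k)
  simp only [Nat.unpair_pair] at h2 h3
  grind

omit [T2Space S] in
lemma dense (hg : ∀ U ∈ 𝓝 (1 : S), ∃ g ∈ U, g ∉ Nc) : Dense (Nb : Set S) := by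
  obtain ⟨B, hB⟩ := (𝓝 (1 : S)).exists_antitone_basis
  choose Y y1 h h1 h2 using fun n Z => step hg (hB.mem n) Z
  let Z : ℕ → {Z : Set ℤ // Z.Infinite} := fun n => Nat.rec ⟨univ, infinite_univ⟩ Y n
  have an : Antitone fun n => (Z n).1 := antitone_nat_of_succ_le fun n => y1 n _
  obtain ⟨z, z1, z2⟩ := seqI (fun n y => y ∈ (Z n).1) (fun x y => y ≠ x) fun n s =>
    ((Z n).2.exists_notMem_finset s).imp fun y hy => ⟨hy.1, fun x hx e => hy.2 (e ▸ hx)⟩
  have t := hB.tendsto fun n => h1 n (Z n)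
  haveI := Nc.is_normal_topologicalClosure
  have c : ∀ σ, σ ∈ Nc.topologicalClosure :=
    big _ (infinite_range_of_injective (inj_of z2)) fun a b ha hb => mem_closure_of_tendsto
      (((by simp only [commutatorElement_def]; fun_prop :
        Continuous fun x : S => ⁅x * a * x⁻¹, b⁆).tendsto' 1 _ (by simp)).comp t) (.of_forall fun n => fin_comm ((((finite_Iic n).image z).union
          (((finite_Iic n).image z).image (h n (Z n)))).subset (by
            rw [mv_conj]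
            rintro _ ⟨⟨x, hx, rfl⟩, k⟩
            obtain ⟨i, rfl⟩ := ha hx
            obtain ⟨j, e⟩ := hb k
            by_contra d
            refine h2 n _ _ (an (?_ : n + 1 ≤ i) (z1 i)) (e ▸ an (?_ : n + 1 ≤ j) (z1 j))
            exacts [not_le.1 fun q : i ≤ n => d (.inr ⟨_, ⟨_, q, rfl⟩, rfl⟩),
              not_le.1 fun q : j ≤ n => d (.inl ⟨_, q, e⟩)])))
  exact perfect Nb.topologicalClosure fun a b => map_mem_closure₂
    (f := fun x y : S => ⁅x, y⁆) (by simp only [commutatorElement_def]; fun_prop) (c a) (c b)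
      fun _ a _ b => cb a b

omit [(𝓝 (1 : S)).IsCountablyGenerated] in
lemma basis {N : Set S} (h : N ∈ 𝓝 1) (k : Tame N) : (𝓝 (1 : S)).HasBasis
    (fun F : Set ℤ => F.Finite) fun F => {g | g ∈ N ∧ ∀ x ∈ F, g x = x} :=
  ⟨fun U => ⟨fun hU => (k U hU).imp fun _ a => ⟨a.1, fun σ b => a.2 σ b.1 b.2⟩,
    fun ⟨_, a, b⟩ => mem_of_superset (inter_mem h ((eventually_all_finite a).2 fun x _ => gau x)) b⟩⟩

lemma main : ∃ N ∈ ({{1}, ↑Nb, ↑Nc, univ} : Set (Set S)), N ∈ 𝓝 1 ∧ Tame N := by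
  have F (F : Set ℤ) (a : F.Finite) : {g : S | ∀ x ∈ F, g x = x} ∈ 𝓝 1 :=
    (eventually_all_finite a).2 fun x _ => gau x
  by_cases hc : (Nc : Set S) ∈ 𝓝 1
  · by_cases ha : ({1} : Set S) ∈ 𝓝 1
    · exact ⟨_, .inl rfl, ha, fun U hU => ⟨∅, finite_empty, fun σ h _ => h ▸ mem_of_mem_nhds hU⟩⟩
    have tb := tameB fun U hU => by
      by_contra! k
      exact ha (mem_of_superset (inter_mem hU hc) fun g a => k g a.1 a.2)
    by_cases hb : (Nb : Set S) ∈ 𝓝 1
    · exact ⟨_, .inr (.inl rfl), hb, tb⟩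
    refine ⟨_, .inr (.inr (.inl rfl)), hc, fun U hU => ?_⟩
    obtain ⟨W, w1, w2⟩ := exists_nhds_one_split hU
    obtain ⟨G, g1, g2⟩ := tb W w1
    obtain ⟨g, ⟨⟨a, b⟩, c⟩, d⟩ := not_subset.1 fun k => hb (mem_of_superset
      (inter_mem (inter_mem w1 hc) (F G g1)) k)
    refine ⟨G, g1, fun σ h k => ?_⟩
    by_cases e : σ ∈ Nb
    · simpa using w2 _ (g2 σ e k) _ (mem_of_mem_nhds w1)
    · simpa using w2 _ a _ (g2 _ (par h b e d) fun x hx => by
        simp [k x hx, symm_apply_eq, c x hx])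
  have hg (U) (hU : U ∈ 𝓝 (1 : S)) : ∃ g ∈ U, g ∉ Nc := not_subset.1 fun k =>
    hc (mem_of_superset hU k)
  have d := dense hg
  have tb := tameB fun U hU => by
    obtain ⟨g, g1, g2⟩ := hg _ (interior_mem_nhds.2 hU)
    obtain ⟨σ, s1, s2⟩ := d.exists_mem_open (isOpen_interior.sdiff isClosed_singleton)
      ⟨g, g1, fun e : g = 1 => g2 (e ▸ one_mem _)⟩
    exact ⟨σ, interior_subset s2.1, bc s1, s2.2⟩
  refine ⟨_, .inr (.inr (.inr rfl)), univ_mem, fun U hU => ?_⟩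
  obtain ⟨W, ⟨w1, w2⟩, w3⟩ := (closed_nhds_basis _).mem_iff.1 hU
  obtain ⟨G, g1, g2⟩ := tb W w1
  refine ⟨G, g1, fun σ _ k => w3 (w2.closure_subset ?_)⟩
  have : {g : S | ∀ x ∈ G, g x = x} ∈ 𝓝 σ := by
    rw [← map_mul_left_nhds_one]
    exact mem_map.2 (mem_of_superset (F G g1) fun g a x hx => by simp [a x hx, k x hx])
  exact mem_closure_iff_frequently.2 (((mem_closure_iff_frequently.1 (d σ)).and_eventually
    this).mono fun g a => g2 g a.1 a.2)

/-- The finitary even permutations: the group generated by the products of two transpositions. -/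
def evenFin : Subgroup (Perm ℤ) :=
  Subgroup.closure {σ | ∃ s t : Perm ℤ, s.IsSwap ∧ t.IsSwap ∧ σ = s * t}

theorem result (t : TopologicalSpace (Perm ℤ)) (hg : IsTopologicalGroup (Perm ℤ))
    (hm : TopologicalSpace.MetrizableSpace (Perm ℤ)) :
    ∃ N ∈ ({{1}, ↑evenFin, {σ | {x | σ x ≠ x}.Finite}, univ} : Set (Set (Perm ℤ))),
      (𝓝 (1 : Perm ℤ)).HasBasis (fun F : Set ℤ => F.Finite)
        fun F => {g | g ∈ N ∧ ∀ x ∈ F, g x = x} := by
  have e : {σ : S | {x | σ x ≠ x}.Finite} = Nc := Set.ext fun _ => memc.symm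
  obtain ⟨N, h1, h2, h3⟩ := main
  exact ⟨N, e ▸ h1, basis h2 h3⟩

end Pool.Agent.Results.MP_8d0ff6_al.Main
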